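import Pool.Agent.H95.SLF.Reduce

/-! The peak lemma: a reduced word with trivial value is trivial. -/

set_option autoImplicit false

namespace Pool.Agent.H95.SLF

open Pool.Agent.H68.SLF

lemma gapp (g h : G) (i j : Fin 3) :
    (g * h).1 i j = g.1 i 0 * h.1 0 j + g.1 i 1 * h.1 1 j + g.1 i 2 * h.1 2 j := by
  simp [Matrix.mul_apply, Fin.sum_univ_three]

lemma gp_P2 (l : List ℤ) : gp l ∈ P2 := by
  induction l with
  | nil => exact one_mem _
  | cons m l ih =>
    refine mul_mem ih (mul_mem ?_ Jm_P2)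
    change (e12 m).1 2 0 = 0 ∧ (e12 m).1 2 1 = 0
    simp [e12_val]

lemma gp_cons10 (m : ℤ) (l : List ℤ) :
    (gp (m :: l)).1 1 0 = (gp l).1 1 0 * -m - (gp l).1 1 1 := by
  rw [gp_cons, gapp, gapp, gapp, gapp, e12_val, Jm_val]
  simp
  ring

lemma gp_cons11 (m : ℤ) (l : List ℤ) : (gp (m :: l)).1 1 1 = (gp l).1 1 0 := by
  rw [gp_cons, gapp, gapp, gapp, gapp, e12_val, Jm_val]
  simp

lemma grow (l : List ℤ) : Rd l → l ≠ [] → ∀ p q : ℤ, q.natAbs < p.natAbs →
    (gp l).1 1 0 * p + (gp l).1 1 1 * q ≠ 0 := by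
  induction l with
  | nil => intro _ h; exact absurd rfl h
  | cons m l ih =>
    intro hR _ p q hpq
    rw [gp_cons10, gp_cons11]
    have e : ((gp l).1 1 0 * -m - (gp l).1 1 1) * p + (gp l).1 1 0 * q =
      (gp l).1 1 0 * (q - m * p) + (gp l).1 1 1 * (-p) := by ring
    rw [e]
    obtain ⟨h1, h2⟩ := hR
    by_cases hl : l = []
    · subst hl
      have hp : p ≠ 0 := by
        intro h
        subst h
        simp at hpq
      simpa using hp
    · rcases h1 with h1 | h1
      · exact absurd h1 hl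
      refine ih h2 hl _ _ ?_
      have h3 : 2 * p.natAbs ≤ (m * p).natAbs := by
        rw [Int.natAbs_mul]
        exact Nat.mul_le_mul_right _ h1
      rw [Int.natAbs_neg]
      generalize m * p = z at h3
      omega

theorem peak : PeakSt := by
  intro x y a b r l hR h
  have hl : l = [] := by
    by_contra hl
    have h1 := grow l hR hl 1 0 (by simp)
    have h2 : (gv x y a b r l).1 1 0 = 0 := by rw [h]; simp
    obtain ⟨h3, h4⟩ := gp_P2 l
    have h5 : (gv x y a b r l).1 1 0 = b * (gp l).1 1 0 := by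
      rw [gv]
      simp only [gapp, uu_val, dm_val, e12_val]
      simp [h3]
    rw [h5] at h2
    rcases mul_eq_zero.1 h2 with h6 | h6
    · exact b.ne_zero h6
    · simp [h6] at h1
  subst hl
  have key : ∀ i j, (gv x y a b r []).1 i j = (1 : G).1 i j := by
    intro i j; rw [h]
  have k00 := key 0 0
  have k11 := key 1 1
  have k01 := key 0 1
  have k02 := key 0 2
  have k12 := key 1 2
  rw [gv] at k00 k11 k01 k02 k12
  simp only [gapp, uu_val, dm_val, e12_val, gp_nil] at k00 k11 k01 k02 k12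
  simp at k00 k11 k01 k02 k12
  subst k00
  subst k11
  exact ⟨k02, k12, rfl, rfl, k01, rfl⟩

end Pool.Agent.H95.SLF
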