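import Pool.Agent.H95.SLF.Pack
import Pool.Agent.H95.SLF.Peak
import Pool.Agent.H13.SLF.Euclid

/-! Module M3: the parabolic package. -/

set_option autoImplicit false

namespace Pool.Agent.H95.SLF

open Pool.Agent.H68.SLF

theorem M3a {W : ℤ → ℤ → List Lt} {E : ℤ → List Lt} {C L₂ : ℕ} (h : LevC W E C L₂) :
    ∃ w2 C' L₀, P2Pack W E w2 C' L₀ :=
  pack peak (fun p n hp hn => euclid p n hp hn) h

theorem M3 : (∃ W E C L₂, LevC W E C L₂) → ∃ w C L₃, ∀ L ≥ L₃, Par w C L := by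
  rintro ⟨W, E, C, L₂, h⟩
  obtain ⟨w2, C', L₀, h2⟩ := M3a h
  exact M3b h h2

end Pool.Agent.H95.SLF
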