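import Pool.Agent.H68.SLF.Count

/-! Parabolic package for the linear filling length of SL(3,Z): letters and structured words. -/

set_option autoImplicit false

namespace Pool.Agent.H95.SLF

open Pool.Agent.H68.SLF

/-! ### letters -/

/-- the rotation in the 12-block -/
def Jm : G := ⟨!![0, 1, 0; -1, 0, 0; 0, 0, 1], by simp [Matrix.det_fin_three]⟩

/-- the diagonal sign matrix -/
def dm (a b : ℤˣ) : G := ⟨!![(a : ℤ), 0, 0; 0, (b : ℤ), 0; 0, 0, (a : ℤ) * (b : ℤ)], by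
  rcases Int.units_eq_one_or a with h | h <;> rcases Int.units_eq_one_or b with h' | h' <;>
    simp [Matrix.det_fin_three, h, h']⟩

lemma Jm_val : Jm.1 = !![0, 1, 0; -1, 0, 0; 0, 0, 1] := rfl

lemma dm_val (a b : ℤˣ) : (dm a b).1 = !![(a : ℤ), 0, 0; 0, (b : ℤ), 0; 0, 0, (a : ℤ) * (b : ℤ)] :=
  rfl

lemma uu_val (x y : ℤ) : (uu x y).1 = !![1, 0, x; 0, 1, y; 0, 0, 1] := rfl

lemma e12_val (x : ℤ) : (e12 x).1 = !![1, x, 0; 0, 1, 0; 0, 0, 1] := rfl

lemma gmul (g h : G) : (g * h).1 = g.1 * h.1 := rfl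

lemma unit_sq (a : ℤˣ) : (a : ℤ) * (a : ℤ) = 1 := by
  rcases Int.units_eq_one_or a with h | h <;> simp [h]

lemma J_mul_T (a b : ℤˣ) : Jm * dm a b = dm b a * Jm := by
  apply Subtype.ext
  rw [gmul, gmul, Jm_val, dm_val, dm_val]
  ext i j
  fin_cases i <;> fin_cases j <;>
    simp [Matrix.mul_apply, Fin.sum_univ_three, mul_comm]

lemma T_mul_T (a b c d : ℤˣ) : dm a b * dm c d = dm (a * c) (b * d) := by
  apply Subtype.ext
  rw [gmul, dm_val, dm_val, dm_val]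
  ext i j
  fin_cases i <;> fin_cases j <;>
    simp [Matrix.mul_apply, Fin.sum_univ_three]
  ring

lemma J_mul_J : Jm * Jm = dm (-1) (-1) := by
  apply Subtype.ext
  rw [gmul, Jm_val, dm_val]
  ext i j
  fin_cases i <;> fin_cases j <;>
    simp [Matrix.mul_apply, Fin.sum_univ_three]

lemma T_one : dm 1 1 = 1 := by
  apply Subtype.ext
  rw [dm_val]
  ext i j
  fin_cases i <;> fin_cases j <;> simp

lemma T_mul_e12 (a b : ℤˣ) (x : ℤ) : dm a b * e12 x = e12 ((a : ℤ) * b * x) * dm a b := by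
  apply Subtype.ext
  rw [gmul, gmul, dm_val, e12_val, e12_val]
  ext i j
  have hb := unit_sq b
  fin_cases i <;> fin_cases j <;>
    simp [Matrix.mul_apply, Fin.sum_univ_three]
  linear_combination (-(a : ℤ) * x) * hb

lemma T_mul_uu (a b : ℤˣ) (x y : ℤ) :
    dm a b * uu x y = uu ((b : ℤ) * x) ((a : ℤ) * y) * dm a b := by
  apply Subtype.ext
  rw [gmul, gmul, dm_val, uu_val, uu_val]
  ext i j
  have hb := unit_sq b
  have ha := unit_sq a
  fin_cases i <;> fin_cases j <;>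
    simp [Matrix.mul_apply, Fin.sum_univ_three]
  · linear_combination (-(a : ℤ) * x) * hb
  · linear_combination (-(b : ℤ) * y) * ha

lemma J_mul_uu (x y : ℤ) : Jm * uu x y = uu y (-x) * Jm := by
  apply Subtype.ext
  rw [gmul, gmul, Jm_val, uu_val, uu_val]
  ext i j
  fin_cases i <;> fin_cases j <;>
    simp [Matrix.mul_apply, Fin.sum_univ_three]

lemma J_E_J (s : ℤˣ) : Jm * (e12 s * Jm) = dm (-s) (-s) * (e12 (-s) * (Jm * e12 (-s))) := by
  apply Subtype.ext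
  simp only [gmul, Jm_val, dm_val, e12_val]
  ext i j
  have hs := unit_sq s
  fin_cases i <;> fin_cases j <;>
    simp [Matrix.mul_apply, Fin.sum_univ_three, hs]

lemma Jm_P2 : Jm ∈ P2 := by
  change Jm.1 2 0 = 0 ∧ Jm.1 2 1 = 0
  simp [Jm_val]

lemma dm_P2 (a b : ℤˣ) : dm a b ∈ P2 := by
  change (dm a b).1 2 0 = 0 ∧ (dm a b).1 2 1 = 0
  simp [dm_val]

lemma Jm_inv : Jm⁻¹ = Jm * dm (-1) (-1) := by
  rw [inv_eq_iff_mul_eq_one, ← mul_assoc, J_mul_J, T_mul_T]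
  simp [T_one]

lemma dm_inv (a b : ℤˣ) : (dm a b)⁻¹ = dm a b := by
  rw [inv_eq_iff_mul_eq_one, T_mul_T]
  simp [T_one]

lemma Jm_inv_val : (Jm⁻¹).1 = !![0, -1, 0; 1, 0, 0; 0, 0, 1] := by
  rw [Jm_inv, gmul, Jm_val, dm_val]
  ext i j
  fin_cases i <;> fin_cases j <;>
    simp [Matrix.mul_apply, Fin.sum_univ_three]

lemma Jm_bd : Bd Jm := by
  intro i j
  rw [Jm_inv_val, Jm_val]
  fin_cases i <;> fin_cases j <;> simp

lemma dm_bd (a b : ℤˣ) : Bd (dm a b) := by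
  intro i j
  rw [dm_inv, dm_val]
  rcases Int.units_eq_one_or a with h | h <;> rcases Int.units_eq_one_or b with h' | h' <;>
  fin_cases i <;> fin_cases j <;> simp [h, h']

/-- the letter `J` -/
def J : Lt := ⟨Jm, Jm_bd⟩

/-- the diagonal letter -/
def T (a b : ℤˣ) : Lt := ⟨dm a b, dm_bd a b⟩

@[simp] lemma J_val : J.1 = Jm := rfl

@[simp] lemma T_val (a b : ℤˣ) : (T a b).1 = dm a b := rfl

/-! ### sizes of integers -/

/-- number of binary digits -/
def sz (m : ℤ) : ℕ := Nat.size m.natAbs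

lemma lt_sz (m : ℤ) : m.natAbs < 2 ^ sz m := Nat.lt_size_self _

lemma sz_le {m : ℤ} {n : ℕ} : sz m ≤ n ↔ m.natAbs < 2 ^ n := Nat.size_le

@[simp] lemma sz_zero : sz 0 = 0 := by simp [sz]

lemma sz_neg (m : ℤ) : sz (-m) = sz m := by simp [sz]

lemma sz_unit (a : ℤˣ) : sz (a : ℤ) = 1 := by
  rcases Int.units_eq_one_or a with h | h <;> simp [sz, h, Nat.size_one]

lemma sz_add (x y : ℤ) : sz (x + y) ≤ max (sz x) (sz y) + 1 := by
  rw [sz_le]
  have h1 := lt_sz x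
  have h2 := lt_sz y
  have h3 : 2 ^ sz x ≤ 2 ^ max (sz x) (sz y) := Nat.pow_le_pow_right (by norm_num) (le_max_left _ _)
  have h4 : 2 ^ sz y ≤ 2 ^ max (sz x) (sz y) := Nat.pow_le_pow_right (by norm_num) (le_max_right _ _)
  have h5 := Int.natAbs_add_le x y
  rw [pow_succ]
  omega

lemma sz_mul (x y : ℤ) : sz (x * y) ≤ sz x + sz y := by
  rw [sz_le, Int.natAbs_mul, pow_add]
  exact Nat.mul_lt_mul'' (lt_sz x) (lt_sz y)

lemma sz_umul (a : ℤˣ) (x : ℤ) : sz ((a : ℤ) * x) = sz x := by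
  rcases Int.units_eq_one_or a with h | h <;> simp [sz, h]

lemma natAbs_umul (a : ℤˣ) (x : ℤ) : ((a : ℤ) * x).natAbs = x.natAbs := by
  rcases Int.units_eq_one_or a with h | h <;> simp [h]

/-- potential of a list -/
def ph : List ℤ → ℕ
  | [] => 0
  | m :: l => 1 + sz m + ph l

@[simp] lemma ph_nil : ph [] = 0 := rfl
@[simp] lemma ph_cons (m : ℤ) (l : List ℤ) : ph (m :: l) = 1 + sz m + ph l := rfl
@[simp] lemma ph_append (l l' : List ℤ) : ph (l ++ l') = ph l + ph l' := by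
  induction l with
  | nil => simp
  | cons m l ih => simp [ih]; ring

lemma ph_map (a : ℤˣ) (l : List ℤ) : ph (l.map fun x => (a : ℤ) * x) = ph l := by
  induction l with
  | nil => rfl
  | cons m l ih => simp [ih, sz_umul]

lemma sz_add_unit (x : ℤ) (s : ℤˣ) : sz (x + s) ≤ sz x + 1 := by
  rw [sz_le]
  have h1 := lt_sz x
  have h5 := Int.natAbs_add_le x s
  have h6 : (s : ℤ).natAbs = 1 := Int.isUnit_iff_natAbs_eq.1 s.isUnit
  rw [pow_succ]
  omega

/-! ### structured words -/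

/-- `... J E(m_2) J E(m_1) J` (list read from right to left) -/
def pre (E : ℤ → List Lt) : List ℤ → List Lt
  | [] => []
  | m :: l => pre E l ++ (E m ++ [J])

@[simp] lemma pre_nil (E : ℤ → List Lt) : pre E [] = [] := rfl
@[simp] lemma pre_cons (E : ℤ → List Lt) (m : ℤ) (l : List ℤ) :
    pre E (m :: l) = pre E l ++ (E m ++ [J]) := rfl

/-- the group element of `pre E l` -/
def gp : List ℤ → G
  | [] => 1
  | m :: l => gp l * (e12 m * Jm)

@[simp] lemma gp_nil : gp [] = 1 := rfl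
@[simp] lemma gp_cons (m : ℤ) (l : List ℤ) : gp (m :: l) = gp l * (e12 m * Jm) := rfl

/-- reduced lists: all entries but the last one are at least 2 in absolute value -/
def Rd : List ℤ → Prop
  | [] => True
  | m :: l => (l = [] ∨ 2 ≤ m.natAbs) ∧ Rd l

/-- the value of a structured word -/
def gv (x y : ℤ) (a b : ℤˣ) (r : ℤ) (l : List ℤ) : G := uu x y * (dm a b * (gp l * e12 r))

/-- structured words -/
def SW (W : ℤ → ℤ → List Lt) (E : ℤ → List Lt) (x y : ℤ) (a b : ℤˣ) (r : ℤ) (l : List ℤ) :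
    List Lt := W x y ++ (T a b :: (pre E l ++ E r))

/-- rewriting inside a word and continuing -/
lemma stp {L n m : ℕ} {u v x y : List Lt} (h : H L m u v) (a b : List Lt)
    (hx : x = a ++ (u ++ b)) (hn : m + a.length + b.length ≤ n)
    (hxy : H L n (a ++ (v ++ b)) y) : H L n x y := by
  subst hx
  exact (h.ctx a b hn).trans hxy

/-- level C package at scale `N` -/
structure LB (W : ℤ → ℤ → List Lt) (E : ℤ → List Lt) (C L N B : ℕ) : Prop where
  ev_W : ∀ x y, ev (W x y) = uu x y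
  ev_E : ∀ x, ev (E x) = e12 x
  W_zero : W 0 0 = []
  E_zero : E 0 = []
  len_W : ∀ x y, sz x ≤ N → sz y ≤ N → (W x y).length ≤ B
  len_E : ∀ m, (E m).length ≤ C * (sz m + 1)
  W_add : ∀ x y x' y', sz x ≤ N → sz y ≤ N → sz x' ≤ N → sz y' ≤ N →
    H L B (W x y ++ W x' y') (W (x + x') (y + y'))
  E_add : ∀ x x', sz x ≤ N → sz x' ≤ N → H L B (E x ++ E x') (E (x + x'))
  E_W : ∀ x a b, sz x ≤ N → sz a ≤ N → sz b ≤ N →
    H L B (E x ++ W a b) (W (a + x * b) b ++ E x)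
  J_W : ∀ a b, sz a ≤ N → sz b ≤ N → H L B (J :: W a b) (W b (-a) ++ [J])
  T_W : ∀ (c d : ℤˣ) (a b : ℤ), sz a ≤ N → sz b ≤ N →
    H L B (T c d :: W a b) (W (d * a) (c * b) ++ [T c d])
  T_E : ∀ (c d : ℤˣ) (x : ℤ), sz x ≤ N →
    H L B (T c d :: E x) (E (c * d * x) ++ [T c d])
  hB : (C + 1) * (N + 1) + 4 ≤ B
  hL : 4 * C + 8 ≤ L

lemma C_le (C N : ℕ) : C * (N + 1) ≤ (C + 1) * (N + 1) + 4 := by
  have : (C + 1) * (N + 1) = C * (N + 1) + (N + 1) := by ring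
  omega

lemma unit_natAbs (s : ℤˣ) : (s : ℤ).natAbs = 1 := Int.isUnit_iff_natAbs_eq.1 s.isUnit

theorem LB.of {W : ℤ → ℤ → List Lt} {E : ℤ → List Lt} {C L₂ L : ℕ} (h : LevC W E C L₂)
    (h2 : L₂ ≤ L) (h4 : 4 * C + 8 ≤ L) (N : ℕ) : LB W E C L N ((C + 1) * (N + 1) + 4) where
  ev_W := h.ev_W
  ev_E := h.ev_E
  W_zero := h.W_zero
  E_zero := h.E_zero
  len_W := fun x y hx hy => (h.len_W x y N (sz_le.1 hx) (sz_le.1 hy)).trans (C_le C N)
  len_E := fun m => h.len_E m _ (lt_sz m)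
  W_add := fun x y x' y' hx hy hx' hy' =>
    (h.W_add L h2 x y x' y' N (sz_le.1 hx) (sz_le.1 hy) (sz_le.1 hx') (sz_le.1 hy')).mono (C_le C N)
  E_add := fun x x' hx hx' => (h.E_add L h2 x x' N (sz_le.1 hx) (sz_le.1 hx')).mono (C_le C N)
  E_W := fun x a b hx ha hb =>
    (h.E_W L h2 x a b N (sz_le.1 hx) (sz_le.1 ha) (sz_le.1 hb)).mono (C_le C N)
  J_W := fun a b ha hb => (h.L_W L h2 J Jm_P2 a b b (-a) N (sz_le.1 ha) (sz_le.1 hb)
    (J_mul_uu a b)).mono (C_le C N)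
  T_W := fun c d a b ha hb => (h.L_W L h2 (T c d) (dm_P2 c d) a b _ _ N (sz_le.1 ha) (sz_le.1 hb)
    (T_mul_uu c d a b)).mono (C_le C N)
  T_E := fun c d x hx => (h.L_E L h2 (T c d) (c * d) (by
    rw [Int.natAbs_mul, unit_natAbs, unit_natAbs]) (by
    have := T_mul_e12 c d 1
    rwa [mul_one] at this) x N (sz_le.1 hx)).mono (C_le C N)
  hB := le_rfl
  hL := h4

end Pool.Agent.H95.SLF
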