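import Pool.Agent.H95.SLF.Base

/-! Moving diagonal letters and radical words through structured words. -/

set_option autoImplicit false

namespace Pool.Agent.H95.SLF

open Pool.Agent.H68.SLF

variable {W : ℤ → ℤ → List Lt} {E : ℤ → List Lt} {C L N B : ℕ}

lemma ev_pre (h : LB W E C L N B) (l : List ℤ) : ev (pre E l) = gp l := by
  induction l with
  | nil => rfl
  | cons m l ih => simp [ih, h.ev_E]

lemma ev_SW (h : LB W E C L N B) (x y : ℤ) (a b : ℤˣ) (r : ℤ) (l : List ℤ) :
    ev (SW W E x y a b r l) = gv x y a b r l := by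
  simp [SW, gv, ev_pre h, h.ev_E, h.ev_W]

lemma lenE' (h : LB W E C L N B) (m : ℤ) : (E m).length + 1 ≤ (C + 1) * (1 + sz m) := by
  have := h.len_E m
  have e : (C + 1) * (1 + sz m) = C * (sz m + 1) + (1 + sz m) := by ring
  omega

lemma len_pre (h : LB W E C L N B) (l : List ℤ) : (pre E l).length ≤ (C + 1) * ph l := by
  induction l with
  | nil => simp
  | cons m l ih =>
    have := lenE' h m
    have e : (C + 1) * ph (m :: l) = (C + 1) * (1 + sz m) + (C + 1) * ph l := by
      rw [ph_cons]; ring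
    rw [e]
    simp only [pre_cons, List.length_append, List.length_cons, List.length_nil]
    omega

lemma len_bw (h : LB W E C L N B) (r : ℤ) (l : List ℤ) :
    (pre E l).length + (E r).length ≤ (C + 1) * ph (r :: l) := by
  have h1 := lenE' h r
  have h2 := len_pre h l
  have e : (C + 1) * ph (r :: l) = (C + 1) * (1 + sz r) + (C + 1) * ph l := by
    rw [ph_cons]; ring
  omega

lemma B_of (h : LB W E C L N B) {k : ℕ} (hk : k ≤ N + 1) : (C + 1) * k + 4 ≤ B :=
  le_trans (by have := Nat.mul_le_mul_left (C + 1) hk; omega) h.hB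

lemma lenE_B (h : LB W E C L N B) {m : ℤ} (hm : sz m ≤ N) : (E m).length + 1 ≤ B := by
  have h1 := lenE' h m
  have h2 := B_of h (k := 1 + sz m) (by omega)
  omega

lemma lenE1 (h : LB W E C L N B) (s : ℤˣ) : (E s).length ≤ 2 * C := by
  have h1 := h.len_E s
  rw [sz_unit] at h1
  omega

lemma lenE1' (h : LB W E C L N B) (s : ℤˣ) : (E (-s)).length ≤ 2 * C := by
  have h1 := h.len_E (-s)
  rw [sz_neg, sz_unit] at h1
  omega

/-- multiply a list by a sign -/
def mp (u : ℤˣ) (l : List ℤ) : List ℤ := l.map fun x => (u : ℤ) * x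

@[simp] lemma mp_nil (u : ℤˣ) : mp u [] = [] := rfl
@[simp] lemma mp_cons (u : ℤˣ) (m : ℤ) (l : List ℤ) : mp u (m :: l) = (u * m) :: mp u l := rfl

lemma ph_mp (u : ℤˣ) (l : List ℤ) : ph (mp u l) = ph l := ph_map u l

lemma mp_one (l : List ℤ) : mp 1 l = l := by
  induction l with
  | nil => rfl
  | cons m l ih => simp [ih]

lemma TT (hL : 2 ≤ L) (a b c d : ℤˣ) : H L 2 [T a b, T c d] [T (a * c) (b * d)] :=
  H.one (by simpa using hL) (by simp; omega) (by simp) (by simp) (by simp [T_mul_T])

lemma JT (hL : 2 ≤ L) (a b : ℤˣ) : H L 2 [J, T a b] [T b a, J] :=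
  H.one (by simpa using hL) (by simpa using hL) (by simp) (by simp) (by simp [J_mul_T])

lemma T0 (hL : 2 ≤ L) : H L 1 [T 1 1] [] :=
  H.one (by simp; omega) (by simp) (by simp) (by simp) (by simp [T_one])

lemma ET (h : LB W E C L N B) (c d : ℤˣ) {x : ℤ} (hx : sz x ≤ N) :
    H L B (E x ++ [T c d]) (T c d :: E (((c * d : ℤˣ) : ℤ) * x)) := by
  have h1 := (h.T_E c d (((c * d : ℤˣ) : ℤ) * x) (by rwa [sz_umul])).symm
  have e : (c : ℤ) * d * (((c * d : ℤˣ) : ℤ) * x) = x := by
    have h2 := unit_sq c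
    have h3 := unit_sq d
    push_cast
    linear_combination (x * d * d) * h2 + x * h3
  rwa [e] at h1

lemma moveT (h : LB W E C L N B) : ∀ l : List ℤ, ph l ≤ N → ∀ a b : ℤˣ, ∃ a' b' : ℤˣ,
    a' * b' = a * b ∧ H L ((C + 1) * ph l + 2 * B) (pre E l ++ [T a b])
      (T a' b' :: pre E (mp (a * b) l)) := by
  intro l
  induction l with
  | nil =>
    intro _ a b
    exact ⟨a, b, rfl, by simpa using H.refl _⟩
  | cons m l ih =>
    intro hl a b
    rw [ph_cons] at hl
    obtain ⟨a', b', hab, ih⟩ := ih (by omega) b a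
    refine ⟨a', b', by rw [hab, mul_comm], ?_⟩
    have hL := h.hL
    have hB := B_of h (k := 0) (by omega)
    have l1 := lenE' h m
    have l2 := len_pre h l
    have l3 := lenE' h (((b * a : ℤˣ) : ℤ) * m)
    rw [sz_umul] at l3
    have e : (C + 1) * ph (m :: l) = (C + 1) * (1 + sz m) + (C + 1) * ph l := by
      rw [ph_cons]; ring
    rw [e]
    refine stp (JT (by omega) a b) (pre E l ++ E m) [] (by simp)
      (by simp only [List.length_append, List.length_nil]; omega) ?_
    refine stp (ET h b a (x := m) (by omega)) (pre E l) [J] (by simp)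
      (by simp only [List.length_cons, List.length_nil]; omega) ?_
    refine stp ih [] (E (((b * a : ℤˣ) : ℤ) * m) ++ [J]) (by simp)
      (by simp only [List.length_append, List.length_cons, List.length_nil]; omega) ?_
    refine H.of_eq ?_
    simp [mul_comm b a]

lemma moveTb (h : LB W E C L N B) (r : ℤ) (l : List ℤ) (hl : ph (r :: l) ≤ N) (a b : ℤˣ) :
    ∃ a' b' : ℤˣ, a' * b' = a * b ∧ H L ((C + 1) * ph (r :: l) + 2 * B)
      (pre E l ++ (E r ++ [T a b]))
      (T a' b' :: (pre E (mp (a * b) l) ++ E (((a * b : ℤˣ) : ℤ) * r))) := by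
  have hl' := hl
  rw [ph_cons] at hl
  obtain ⟨a', b', hab, h1⟩ := moveT h l (by omega) a b
  refine ⟨a', b', hab, ?_⟩
  have l1 := lenE' h r
  have l2 := len_pre h l
  have l3 := lenE' h (((a * b : ℤˣ) : ℤ) * r)
  rw [sz_umul] at l3
  have e : (C + 1) * ph (r :: l) = (C + 1) * (1 + sz r) + (C + 1) * ph l := by
    rw [ph_cons]; ring
  rw [e]
  refine stp (ET h a b (x := r) (by omega)) (pre E l) [] (by simp)
    (by simp only [List.length_nil]; omega) ?_
  refine stp h1 [] (E (((a * b : ℤˣ) : ℤ) * r)) (by simp)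
    (by simp only [List.length_nil]; omega) ?_
  exact H.of_eq (by simp)

/-- central diagonal letters do not change the rest -/
lemma moveTc (h : LB W E C L N B) (r : ℤ) (l : List ℤ) (hl : ph (r :: l) ≤ N) (c : ℤˣ) :
    ∃ c' : ℤˣ, H L ((C + 1) * ph (r :: l) + 2 * B)
      (pre E l ++ (E r ++ [T c c])) (T c' c' :: (pre E l ++ E r)) := by
  obtain ⟨a', b', hab, h1⟩ := moveTb h r l hl c c
  have e : c * c = 1 := Int.units_mul_self c
  have e2 : b' = a' := by
    rw [e] at hab
    have h3 : a' * (a' * b') = a' := by rw [hab, mul_one]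
    rw [← mul_assoc, Int.units_mul_self, one_mul] at h3
    exact h3
  subst e2
  refine ⟨b', ?_⟩
  simpa [e, mp_one] using h1

lemma moveW (h : LB W E C L N B) : ∀ l : List ℤ, ∀ k, k + ph l ≤ N → ∀ x y : ℤ, sz x ≤ k →
    sz y ≤ k → ∃ x' y' : ℤ, sz x' ≤ k + ph l ∧ sz y' ≤ k + ph l ∧
      H L ((C + 1) * ph l + 2 * B) (pre E l ++ W x y) (W x' y' ++ pre E l) := by
  intro l
  induction l with
  | nil =>
    intro k _ x y hx hy
    exact ⟨x, y, by simpa using hx, by simpa using hy, by simpa using H.refl _⟩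
  | cons m l ih =>
    intro k hk x y hx hy
    rw [ph_cons] at hk ⊢
    have s1 := sz_mul m (-x)
    have s2 := sz_add y (m * -x)
    rw [sz_neg] at s1
    obtain ⟨x', y', hx', hy', ih⟩ := ih (k + sz m + 1) (by omega) (y + m * -x) (-x) (by omega)
      (by rw [sz_neg]; omega)
    refine ⟨x', y', by omega, by omega, ?_⟩
    have hB := B_of h (k := 0) (by omega)
    have l1 := lenE' h m
    have l2 := len_pre h l
    have e : (C + 1) * (1 + sz m + ph l) = (C + 1) * (1 + sz m) + (C + 1) * ph l := by ring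
    rw [e]
    refine stp (h.J_W x y (by omega) (by omega)) (pre E l ++ E m) [] (by simp)
      (by simp only [List.length_append, List.length_nil]; omega) ?_
    refine stp (h.E_W m y (-x) (by omega) (by omega) (by rw [sz_neg]; omega)) (pre E l) [J]
      (by simp) (by simp only [List.length_cons, List.length_nil]; omega) ?_
    refine stp ih [] (E m ++ [J]) (by simp)
      (by simp only [List.length_append, List.length_cons, List.length_nil]; omega) ?_
    exact H.of_eq (by simp)

lemma moveWb (h : LB W E C L N B) (r : ℤ) (l : List ℤ) (k : ℕ) (hk : k + ph (r :: l) ≤ N)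
    (x y : ℤ) (hx : sz x ≤ k) (hy : sz y ≤ k) :
    ∃ x' y' : ℤ, sz x' ≤ k + ph (r :: l) ∧ sz y' ≤ k + ph (r :: l) ∧
      H L ((C + 1) * ph (r :: l) + 2 * B) (pre E l ++ (E r ++ W x y))
        (W x' y' ++ (pre E l ++ E r)) := by
  rw [ph_cons] at hk ⊢
  have s1 := sz_mul r y
  have s2 := sz_add x (r * y)
  obtain ⟨x', y', hx', hy', h1⟩ := moveW h l (k + sz r + 1) (by omega) (x + r * y) y (by omega)
    (by omega)
  refine ⟨x', y', by omega, by omega, ?_⟩
  have l1 := lenE' h r
  have l2 := len_pre h l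
  have e : (C + 1) * (1 + sz r + ph l) = (C + 1) * (1 + sz r) + (C + 1) * ph l := by ring
  rw [e]
  refine stp (h.E_W r x y (by omega) (by omega) (by omega)) (pre E l) []
    (by simp) (by simp only [List.length_nil]; omega) ?_
  refine stp h1 [] (E r) (by simp) (by simp only [List.length_nil]; omega) ?_
  exact H.of_eq (by simp)

end Pool.Agent.H95.SLF
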