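import Pool.Agent.H95.SLF.Collect

/-! Appending pieces to structured words. -/

set_option autoImplicit false

namespace Pool.Agent.H95.SLF

open Pool.Agent.H68.SLF

variable {W : ℤ → ℤ → List Lt} {E : ℤ → List Lt} {C L N B : ℕ}

/-- `w` is a structured word with radical part of size `V` and potential `M` -/
def Good (W : ℤ → ℤ → List Lt) (E : ℤ → List Lt) (V M : ℕ) (w : List Lt) : Prop :=
  ∃ (x y : ℤ) (a b : ℤˣ) (r : ℤ) (l : List ℤ), w = SW W E x y a b r l ∧ sz x ≤ V ∧ sz y ≤ V ∧
    ph (r :: l) ≤ M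

lemma Good.mono {V V' M M' : ℕ} {w : List Lt} (hw : Good W E V M w) (h1 : V ≤ V') (h2 : M ≤ M') :
    Good W E V' M' w := by
  obtain ⟨x, y, a, b, r, l, e, hx, hy, hl⟩ := hw
  exact ⟨x, y, a, b, r, l, e, by omega, by omega, by omega⟩

lemma len_SW (h : LB W E C L N B) {x y : ℤ} {a b : ℤˣ} {r : ℤ} {l : List ℤ} (hx : sz x ≤ N)
    (hy : sz y ≤ N) (hl : ph (r :: l) ≤ N + 1) : (SW W E x y a b r l).length ≤ 2 * B := by
  have h1 := h.len_W x y hx hy
  have h2 := len_bw h r l
  have h3 := B_of h hl
  simp only [SW, List.length_append, List.length_cons]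
  omega

lemma Good.len (h : LB W E C L N B) {V M : ℕ} {w : List Lt} (hw : Good W E V M w) (h1 : V ≤ N)
    (h2 : M ≤ N + 1) : w.length ≤ 2 * B := by
  obtain ⟨x, y, a, b, r, l, rfl, hx, hy, hl⟩ := hw
  exact len_SW h (by omega) (by omega) (by omega)

lemma Good.apE (h : LB W E C L N B) {V M : ℕ} {w : List Lt} (hw : Good W E V M w) (h1 : V ≤ N)
    (q : ℤ) (h2 : M + sz q + 1 ≤ N) :
    ∃ w', Good W E V (M + sz q + 1) w' ∧ H L (3 * B) (w ++ E q) w' := by
  obtain ⟨x, y, a, b, r, l, rfl, hx, hy, hl⟩ := hw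
  rw [ph_cons] at hl
  have s1 := sz_add r q
  refine ⟨SW W E x y a b (r + q) l, ⟨x, y, a, b, _, l, rfl, hx, hy, by
    rw [ph_cons]; omega⟩, ?_⟩
  have l1 := h.len_W x y (by omega) (by omega)
  have l2 := len_pre h l
  have l3 := B_of h (k := ph l) (by omega)
  refine stp (h.E_add r q (by omega) (by omega)) (W x y ++ (T a b :: pre E l)) []
    (by simp [SW]) (by simp only [List.length_append, List.length_cons, List.length_nil]; omega) ?_
  exact H.of_eq (by simp [SW])

lemma Good.apJ (h : LB W E C L N B) {V M : ℕ} {w : List Lt} (hw : Good W E V M w) :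
    Good W E V (M + 1) (w ++ [J]) := by
  obtain ⟨x, y, a, b, r, l, rfl, hx, hy, hl⟩ := hw
  rw [ph_cons] at hl
  exact ⟨x, y, a, b, 0, r :: l, by simp [SW, h.E_zero], hx, hy, by
    rw [ph_cons, ph_cons, sz_zero]; omega⟩

lemma Good.apT (h : LB W E C L N B) {V M : ℕ} {w : List Lt} (hw : Good W E V M w) (h1 : V ≤ N)
    (h2 : M ≤ N) (c d : ℤˣ) :
    ∃ w', Good W E V M w' ∧ H L (5 * B) (w ++ [T c d]) w' := by
  obtain ⟨x, y, a, b, r, l, rfl, hx, hy, hl⟩ := hw
  obtain ⟨c', d', hcd, h3⟩ := moveTb h r l (by omega) c d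
  refine ⟨SW W E x y (a * c') (b * d') (((c * d : ℤˣ) : ℤ) * r) (mp (c * d) l),
    ⟨_, _, _, _, _, _, rfl, hx, hy, by
    rw [ph_cons] at hl ⊢; rw [sz_umul, ph_mp]; exact hl⟩, ?_⟩
  have l1 := h.len_W x y (by omega) (by omega)
  have l3 := B_of h (k := ph (r :: l)) (by omega)
  have l4 := len_bw h (((c * d : ℤˣ) : ℤ) * r) (mp (c * d) l)
  have l5 : ph ((((c * d : ℤˣ) : ℤ) * r) :: mp (c * d) l) = ph (r :: l) := by
    rw [ph_cons, ph_cons, sz_umul, ph_mp]
  rw [l5] at l4
  have hL := h.hL
  refine stp h3 (W x y ++ [T a b]) [] (by simp [SW])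
    (by simp only [List.length_append, List.length_cons, List.length_nil]; omega) ?_
  refine stp (TT (by omega) a b c' d') (W x y) (pre E (mp (c * d) l) ++
    E (((c * d : ℤˣ) : ℤ) * r)) (by simp) (by simp only [List.length_append]; omega) ?_
  exact H.of_eq (by simp [SW])

lemma Good.apW (h : LB W E C L N B) {V M : ℕ} {w : List Lt} (hw : Good W E V M w) {k : ℕ}
    (h1 : V ≤ k + M) (h2 : k + M ≤ N) (x' y' : ℤ) (hx' : sz x' ≤ k) (hy' : sz y' ≤ k) :
    ∃ w', Good W E (k + M + 1) M w' ∧ H L (6 * B) (w ++ W x' y') w' := by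
  obtain ⟨x, y, a, b, r, l, rfl, hx, hy, hl⟩ := hw
  obtain ⟨u, v, hu, hv, h3⟩ := moveWb h r l k (by omega) x' y' hx' hy'
  have s1 := sz_add x (b * u)
  have s2 := sz_add y (a * v)
  have s3 := sz_umul b u
  have s4 := sz_umul a v
  refine ⟨SW W E (x + b * u) (y + a * v) a b r l, ⟨_, _, _, _, _, _, rfl, by omega, by omega, hl⟩,
    ?_⟩
  have l1 := h.len_W x y (by omega) (by omega)
  have l2 := h.len_W (b * u) (a * v) (by omega) (by omega)
  have l3 := B_of h (k := ph (r :: l)) (by omega)
  have l4 := len_bw h r l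
  refine stp h3 (W x y ++ [T a b]) [] (by simp [SW])
    (by simp only [List.length_append, List.length_cons, List.length_nil]; omega) ?_
  refine stp (h.T_W a b u v (by omega) (by omega)) (W x y) (pre E l ++ E r)
    (by simp) (by simp only [List.length_append]; omega) ?_
  refine stp (h.W_add x y (b * u) (a * v) (by omega) (by omega) (by omega) (by omega)) []
    (T a b :: (pre E l ++ E r))
    (by simp) (by simp only [List.length_append, List.length_cons, List.length_nil]; omega) ?_
  exact H.of_eq (by simp [SW])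

lemma Good.apP (h : LB W E C L N B) : ∀ (l : List ℤ) {V M : ℕ} {w : List Lt},
    Good W E V M w → V ≤ N → M + 2 * ph l ≤ N →
    ∃ w', Good W E V (M + 2 * ph l) w' ∧ H L ((C + 1) * ph l + 3 * B) (w ++ pre E l) w' := by
  intro l
  induction l with
  | nil =>
    intro V M w hw _ _
    exact ⟨w, by simpa using hw, by simpa using H.refl _⟩
  | cons m l ih =>
    intro V M w hw h1 h2
    rw [ph_cons] at h2 ⊢
    obtain ⟨w₁, g1, h3⟩ := ih hw h1 (by omega)
    obtain ⟨w₂, g2, h4⟩ := g1.apE h h1 m (by omega)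
    refine ⟨w₂ ++ [J], (g2.apJ h).mono le_rfl (by omega), ?_⟩
    have l1 := lenE' h m
    have e : (C + 1) * (1 + sz m + ph l) = (C + 1) * (1 + sz m) + (C + 1) * ph l := by ring
    rw [e]
    refine stp h3 [] (E m ++ [J]) (by simp)
      (by simp only [List.length_append, List.length_cons, List.length_nil]; omega) ?_
    refine stp h4 [] [J] (by simp)
      (by simp only [List.length_cons, List.length_nil]; omega) ?_
    exact H.of_eq (by simp)

/-! ### inverses -/

lemma wiE (h : LB W E C L N B) {m : ℤ} (hm : sz m ≤ N) : H L (3 * B) (wi (E m)) (E (-m)) := by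
  have hL := h.hL
  have l1 := lenE_B h hm
  have l2 := lenE_B h (m := -m) (by rwa [sz_neg])
  have h1 : H L (2 * (E m).length) (E m ++ wi (E m)) [] := H.cancel (by omega) _ le_rfl
  have h2 : H L B (E (-m) ++ E m) [] := by
    have := h.E_add (-m) m (by rwa [sz_neg]) hm
    simpa [h.E_zero] using this
  refine H.symm ?_
  refine stp h1.symm (E (-m)) [] (by simp) (by simp only [List.length_nil]; omega) ?_
  refine stp h2 [] (wi (E m)) (by simp) (by simp only [List.length_nil, length_wi]; omega) ?_
  exact H.of_eq (by simp)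

lemma wiW (h : LB W E C L N B) {x y : ℤ} (hx : sz x ≤ N) (hy : sz y ≤ N) :
    H L (3 * B) (wi (W x y)) (W (-x) (-y)) := by
  have hL := h.hL
  have l1 := h.len_W x y hx hy
  have l2 := h.len_W (-x) (-y) (by rwa [sz_neg]) (by rwa [sz_neg])
  have h1 : H L (2 * (W x y).length) (W x y ++ wi (W x y)) [] := H.cancel (by omega) _ le_rfl
  have h2 : H L B (W (-x) (-y) ++ W x y) [] := by
    have := h.W_add (-x) (-y) x y (by rwa [sz_neg]) (by rwa [sz_neg]) hx hy
    simpa [h.W_zero] using this
  refine H.symm ?_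
  refine stp h1.symm (W (-x) (-y)) [] (by simp) (by simp only [List.length_nil]; omega) ?_
  refine stp h2 [] (wi (W x y)) (by simp) (by simp only [List.length_nil, length_wi]; omega) ?_
  exact H.of_eq (by simp)

lemma linvT (a b : ℤˣ) : linv (T a b) = T a b := by
  apply Subtype.ext
  simp [dm_inv]

lemma linvJ (hL : 2 ≤ L) : H L 2 [linv J] [J, T (-1) (-1)] :=
  H.one (by simp; omega) (by simpa using hL) (by simp) (by simp) (by simp [Jm_inv])

lemma Good.apPi (h : LB W E C L N B) : ∀ (l : List ℤ) {V M : ℕ} {w : List Lt},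
    Good W E V M w → V ≤ N → M + 2 * ph l ≤ N →
    ∃ w', Good W E V (M + 2 * ph l) w' ∧
      H L ((C + 1) * ph l + 5 * B) (w ++ wi (pre E l)) w' := by
  intro l
  induction l with
  | nil =>
    intro V M w hw _ _
    exact ⟨w, by simpa using hw, by simpa using H.refl _⟩
  | cons m l ih =>
    intro V M w hw h1 h2
    rw [ph_cons] at h2 ⊢
    have hL := h.hL
    obtain ⟨w₁, g1, h3⟩ := (hw.apJ h).apT h h1 (by omega) (-1) (-1)
    have s1 := sz_neg m
    obtain ⟨w₂, g2, h4⟩ := g1.apE h h1 (-m) (by omega)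
    obtain ⟨w₃, g3, h5⟩ := ih (g2.mono le_rfl (M' := M + 2 + sz m) (by omega)) h1 (by omega)
    refine ⟨w₃, g3.mono le_rfl (by omega), ?_⟩
    have l1 := lenE' h m
    have l2 := len_pre h l
    have l3 := hw.len h h1 (by omega)
    have l4 := g1.len h h1 (by omega)
    have l5 := lenE' h (-m)
    rw [sz_neg] at l5
    have l6 := B_of h (k := 1 + sz m + ph l) (by omega)
    have e : (C + 1) * (1 + sz m + ph l) = (C + 1) * (1 + sz m) + (C + 1) * ph l := by ring
    rw [e] at l6 ⊢
    refine stp (linvJ (by omega)) w (wi (E m) ++ wi (pre E l)) (by simp)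
      (by simp only [List.length_append, length_wi]; omega) ?_
    refine stp h3 [] (wi (E m) ++ wi (pre E l)) (by simp)
      (by simp only [List.length_append, List.length_nil, length_wi]; omega) ?_
    refine stp (wiE h (m := m) (by omega)) w₁ (wi (pre E l)) (by simp)
      (by simp only [length_wi]; omega) ?_
    refine stp h4 [] (wi (pre E l)) (by simp)
      (by simp only [List.length_nil, length_wi]; omega) ?_
    simpa using h5.mono (by omega)

/-- products of structured words -/
lemma Good.mul (h : LB W E C L N B) {V M V' M' : ℕ} {w w' : List Lt} (hw : Good W E V M w)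
    (hw' : Good W E V' M' w') (h1 : V ≤ V' + M) (h2 : V' + M + 3 * M' ≤ N) :
    ∃ w'', Good W E (V' + M + 1) (M + 3 * M') w'' ∧ H L (8 * B) (w ++ w') w'' := by
  obtain ⟨x, y, a, b, r, l, rfl, hx, hy, hl⟩ := hw'
  have hl' := hl
  rw [ph_cons] at hl'
  obtain ⟨w₁, g1, h3⟩ := hw.apW h (k := V') h1 (by omega) x y hx hy
  obtain ⟨w₂, g2, h4⟩ := g1.apT h (by omega) (by omega) a b
  obtain ⟨w₃, g3, h5⟩ := g2.apP h l (by omega) (by omega)
  obtain ⟨w₄, g4, h6⟩ := g3.apE h (by omega) r (by omega)
  refine ⟨w₄, g4.mono le_rfl (by omega), ?_⟩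
  have l1 := len_bw h r l
  have l2 := B_of h (k := ph (r :: l)) (by omega)
  have l3 := B_of h (k := ph l) (by omega)
  refine stp h3 [] (T a b :: (pre E l ++ E r)) (by simp [SW])
    (by simp only [List.length_append, List.length_cons, List.length_nil]; omega) ?_
  refine stp h4 [] (pre E l ++ E r) (by simp)
    (by simp only [List.length_append, List.length_nil]; omega) ?_
  refine stp h5 [] (E r) (by simp)
    (by simp only [List.length_nil]; omega) ?_
  simpa using h6.mono (by omega)

/-- products with inverses of structured words -/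
lemma Good.muli (h : LB W E C L N B) {V M V' M' : ℕ} {w w' : List Lt} (hw : Good W E V M w)
    (hw' : Good W E V' M' w') (h1 : V ≤ V' + M) (h2 : V' + M + 3 * M' ≤ N) :
    ∃ w'', Good W E (V' + M + 3 * M' + 1) (M + 3 * M') w'' ∧
      H L (8 * B) (w ++ wi w') w'' := by
  obtain ⟨x, y, a, b, r, l, rfl, hx, hy, hl⟩ := hw'
  have hl' := hl
  rw [ph_cons] at hl'
  have s1 := sz_neg r
  have s2 := sz_neg x
  have s3 := sz_neg y
  obtain ⟨w₁, g1, h3⟩ := hw.apE h (by omega) (-r) (by omega)
  obtain ⟨w₂, g2, h4⟩ := g1.apPi h l (by omega) (by omega)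
  obtain ⟨w₃, g3, h5⟩ := g2.apT h (by omega) (by omega) a b
  obtain ⟨w₄, g4, h6⟩ := (g3.mono le_rfl (M' := M + 3 * M') (by omega)).apW h (k := V') (by omega)
    (by omega) (-x) (-y) (by omega) (by omega)
  refine ⟨w₄, g4.mono (by omega) (by omega), ?_⟩
  have l1 := len_bw h r l
  have l2 := B_of h (k := ph (r :: l)) (by omega)
  have l3 := B_of h (k := ph l) (by omega)
  have l4 := h.len_W x y (by omega) (by omega)
  have l5 := hw.len h (by omega) (by omega)
  have l6 := g3.len h (by omega) (by omega)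
  have l7 := len_pre h l
  have e1 : wi (SW W E x y a b r l) = wi (E r) ++ (wi (pre E l) ++ ([T a b] ++
    wi (W x y))) := by
    simp [SW, linvT]
  rw [e1]
  refine stp (wiE h (m := r) (by omega)) w (wi (pre E l) ++ ([T a b] ++ wi (W x y)))
    (by simp) (by simp only [List.length_append, List.length_cons, List.length_nil, length_wi]
                  omega) ?_
  refine stp h3 [] (wi (pre E l) ++ ([T a b] ++ wi (W x y)))
    (by simp) (by simp only [List.length_append, List.length_cons, List.length_nil, length_wi]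
                  omega) ?_
  refine stp h4 [] ([T a b] ++ wi (W x y))
    (by simp) (by simp only [List.length_append, List.length_cons, List.length_nil, length_wi]
                  omega) ?_
  refine stp h5 [] (wi (W x y))
    (by simp) (by simp only [List.length_nil, length_wi]
                  omega) ?_
  refine stp (wiW h (x := x) (y := y) (by omega) (by omega)) w₃ []
    (by simp) (by simp only [List.length_nil]
                  omega) ?_
  simpa using h6.mono (by omega)

end Pool.Agent.H95.SLF
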