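import Pool.Agent.H95.SLF.Reduce
import Pool.Agent.H21.SLF.M3b

/-! The package for the parabolic subgroup `P2`. -/

set_option autoImplicit false

namespace Pool.Agent.H95.SLF

open Pool.Agent.H68.SLF

variable {W : ℤ → ℤ → List Lt} {E : ℤ → List Lt} {C L₂ : ℕ}

/-- the statement of the Euclid lemma -/
def EuclidSt : Prop := ∀ (p : G) (n : ℕ), p ∈ P2 → Sz n p →
    ∃ (x y : ℤ) (a b : ℤˣ) (r : ℤ) (l : List ℤ), gv x y a b r l = p ∧ sz x ≤ n ∧ sz y ≤ n ∧
      ph (r :: l) ≤ 11 * n + 11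

lemma exists_wd (hE : EuclidSt) (h : LevC W E C L₂) (p : G) : ∃ w : List Lt, p ∈ P2 →
    ev w = p ∧ ∀ n, Sz n p → Good W E n (11 * n + 11) w := by
  classical
  by_cases hp : p ∈ P2
  · obtain ⟨x, y, a, b, r, l, h1, h2, h3, h4⟩ := hE p (Nat.find (exists_Sz p)) hp
      (Nat.find_spec (exists_Sz p))
    refine ⟨SW W E x y a b r l, fun _ => ⟨?_, fun n hn => ?_⟩⟩
    · rw [ev_SW (LB.of h (L := L₂ + 4 * C + 8) (by omega) (by omega) 0), h1]
    · have h5 := Nat.find_min' (exists_Sz p) hn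
      exact ⟨x, y, a, b, r, l, rfl, by omega, by omega, by omega⟩
  · exact ⟨[], fun h => absurd h hp⟩

lemma diag_eq (τ : Lt) (h : ∀ i j, i ≠ j → τ.1.1 i j = 0) : ∃ a b : ℤˣ, τ = T a b := by
  have hd := τ.1.2
  rw [Matrix.det_fin_three, h 0 1 (by decide), h 0 2 (by decide), h 1 2 (by decide),
    h 1 0 (by decide), h 2 0 (by decide), h 2 1 (by decide)] at hd
  simp only [mul_zero, zero_mul, sub_zero, add_zero] at hd
  have u0 : IsUnit (τ.1.1 0 0) :=
    IsUnit.of_mul_eq_one (τ.1.1 1 1 * τ.1.1 2 2) (by linarith)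
  have u1 : IsUnit (τ.1.1 1 1) :=
    IsUnit.of_mul_eq_one (τ.1.1 0 0 * τ.1.1 2 2) (by linarith)
  obtain ⟨a, ha⟩ := u0
  obtain ⟨b, hb⟩ := u1
  refine ⟨a, b, ?_⟩
  have h2 : τ.1.1 2 2 = (a : ℤ) * b := by
    rw [← ha, ← hb] at hd
    have q1 := unit_sq a
    have q2 := unit_sq b
    linear_combination (a * b : ℤ) * hd - τ.1.1 2 2 * q1 - τ.1.1 2 2 * a * a * q2
  apply Subtype.ext
  apply Subtype.ext
  rw [T_val, dm_val]
  ext i j
  fin_cases i <;> fin_cases j <;>
    simp [h2, ha, hb, h 0 1 (by decide), h 0 2 (by decide), h 1 2 (by decide),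
      h 1 0 (by decide), h 2 0 (by decide), h 2 1 (by decide)]

lemma Sz_e12 {x : ℤ} {n : ℕ} (hx : x.natAbs < 2 ^ n) : Sz (n + 1) (e12 x) := by
  have h1 : x.natAbs < 2 ^ (n + 1) := hx.trans_le (Nat.pow_le_pow_right (by norm_num) (by omega))
  have h2 : 1 < 2 ^ (n + 1) := Nat.one_lt_two_pow (by omega)
  intro i j
  rw [e12_inv, e12_val, e12_val]
  fin_cases i <;> fin_cases j <;> simp [h1]

lemma Sz_uu {x y : ℤ} {n : ℕ} (hx : x.natAbs < 2 ^ n) (hy : y.natAbs < 2 ^ n) :
    Sz (n + 1) (uu x y) := by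
  have h1 : x.natAbs < 2 ^ (n + 1) := hx.trans_le (Nat.pow_le_pow_right (by norm_num) (by omega))
  have h3 : y.natAbs < 2 ^ (n + 1) := hy.trans_le (Nat.pow_le_pow_right (by norm_num) (by omega))
  have h2 : 1 < 2 ^ (n + 1) := Nat.one_lt_two_pow (by omega)
  intro i j
  rw [uu_inv, uu_val, uu_val]
  fin_cases i <;> fin_cases j <;> simp [h1, h3]

lemma uu_P2 (x y : ℤ) : uu x y ∈ P2 := by
  change (uu x y).1 2 0 = 0 ∧ (uu x y).1 2 1 = 0
  simp [uu_val]

lemma e12_P2 (x : ℤ) : e12 x ∈ P2 := by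
  change (e12 x).1 2 0 = 0 ∧ (e12 x).1 2 1 = 0
  simp [e12_val]

theorem pack (hP : PeakSt) (hE : EuclidSt) (h : LevC W E C L₂) :
    ∃ w2 C' L₀, P2Pack W E w2 C' L₀ := by
  classical
  choose wd hwd using exists_wd hE h
  obtain ⟨L₀, hL₀⟩ : ∃ L₀, L₀ = L₂ + 4 * C + 8 := ⟨_, rfl⟩
  have hlb : ∀ n, LB W E C L₀ (1000 * (n + 1)) ((C + 1) * (1000 * (n + 1) + 1) + 4) := fun n =>
    LB.of h (by omega) (by omega) _
  obtain ⟨K, hK⟩ : ∃ K, K = (C + 1) * 1001 + 4 := ⟨_, rfl⟩
  have hBK : ∀ n, (C + 1) * (1000 * (n + 1) + 1) + 4 ≤ K * (n + 1) := by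
    intro n
    rw [hK]
    have e : ((C + 1) * 1001 + 4) * (n + 1) = (C + 1) * (1000 * (n + 1) + 1) + 4 +
      ((C + 1) * n + 4 * n) := by ring
    omega
  have hL₀n : ∀ n, L₀ ≤ L₀ * (n + 1) := fun n => Nat.le_mul_of_pos_right _ (by omega)
  -- the words up to homotopy
  have h12 : ∀ p n, p ∈ P2 → Sz n p → H L₀ (9 * (K * (n + 1)) + L₀)
      (if p = 1 then [] else wd p) (wd p) := by
    intro p n hp hn
    have hB := hBK n
    split_ifs with h1
    · obtain ⟨g1, g2⟩ := hwd p hp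
      exact ((red hP (hlb n) (g2 n hn) (by omega) (by omega) (by rw [g1, h1])).symm).mono
        (by omega)
    · exact H.refl _
  refine ⟨fun p => if p = 1 then [] else wd p, 100 * K + 10 * L₀, L₀, ?_, ?_, ?_, ?_, ?_⟩
  · intro p hp
    by_cases h1 : p = 1
    · simp [h1]
    · simpa [h1] using (hwd p hp).1
  · intro p n hp hn
    have e : (100 * K + 10 * L₀) * (n + 1) = 100 * (K * (n + 1)) + 10 * (L₀ * (n + 1)) := by ring
    have hB := hBK n
    by_cases h1 : p = 1
    · simp [h1]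
    · have := ((hwd p hp).2 n hn).len (hlb n) (by omega) (by omega)
      simp only [h1, if_false]
      omega
  · intro L hL p q n hp hq hpn hqn
    refine H.monoL ?_ hL
    have e : (100 * K + 10 * L₀) * (n + 1) = 100 * (K * (n + 1)) + 10 * (L₀ * (n + 1)) := by ring
    rw [e]
    have hB := hBK n
    have hLn := hL₀n n
    have hpq : p * q ∈ P2 := mul_mem hp hq
    have hpqn : Sz (n + n + 2) (p * q) := hpn.mul hqn
    obtain ⟨p1, p2⟩ := hwd p hp
    obtain ⟨q1, q2⟩ := hwd q hq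
    obtain ⟨r1, r2⟩ := hwd (p * q) hpq
    have gp := p2 n hpn
    have gq := q2 n hqn
    have gr := r2 _ hpqn
    obtain ⟨w₁, g1, h1⟩ := gp.mul (hlb n) gq (by omega) (by omega)
    have h2 := uniq hP (hlb n) (V := 12 * n + 12) (M := 44 * n + 44)
      (g1.mono (by omega) (by omega)) (gr.mono (by omega) (by omega)) (by omega)
      (by rw [← h1.ev_eq, r1, ev_append, p1, q1])
    have l1 := gp.len (hlb n) (by omega) (by omega)
    have l2 := gq.len (hlb n) (by omega) (by omega)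
    have e2 : K * (n + n + 2 + 1) ≤ 3 * (K * (n + 1)) := by
      calc K * (n + n + 2 + 1) ≤ K * (3 * (n + 1)) := Nat.mul_le_mul_left _ (by omega)
        _ = _ := by ring
    have hq' : (if q = 1 then [] else wd q).length ≤ K * (n + 1) * 2 := by
      split_ifs
      · simp
      · omega
    refine stp (h12 p n hp hpn) [] (if q = 1 then [] else wd q) (by simp)
      (by simp only [List.length_nil]; omega) ?_
    refine stp (h12 q n hq hqn) (wd p) [] (by simp)
      (by simp only [List.length_nil]; omega) ?_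
    refine stp h1 [] [] (by simp) (by simp only [List.length_nil]; omega) ?_
    refine stp h2 [] [] (by simp) (by simp only [List.length_nil]; omega) ?_
    simpa using ((h12 (p * q) _ hpq hpqn).symm).mono (by omega)
  · simp
  · intro L hL τ x y z n hτ hx hy hz
    refine H.monoL ?_ hL
    have e : (100 * K + 10 * L₀) * (n + 1) = 100 * (K * (n + 1)) + 10 * (L₀ * (n + 1)) := by ring
    rw [e]
    have hB := hBK n
    have hLn := hL₀n n
    obtain ⟨a, b, rfl⟩ := diag_eq τ hτ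
    have hp : (T a b).1 * (e12 x * uu y z) ∈ P2 :=
      mul_mem (dm_P2 a b) (mul_mem (e12_P2 x) (uu_P2 y z))
    have hpn : Sz (2 * n + 8) ((T a b).1 * (e12 x * uu y z)) :=
      ((T a b).2.Sz.mul ((Sz_e12 hx).mul (Sz_uu hy hz))).mono (by omega)
    obtain ⟨p1, p2⟩ := hwd _ hp
    have gp := p2 _ hpn
    have g0 : Good W E 0 1 [T 1 1] :=
      ⟨0, 0, 1, 1, 0, [], by simp [SW, h.W_zero, h.E_zero], by simp, by simp, by simp⟩
    have x1 := sz_le.2 hx
    have y1 := sz_le.2 hy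
    have z1 := sz_le.2 hz
    obtain ⟨w₁, g1, h1⟩ := g0.apT (hlb n) (by omega) (by omega) a b
    obtain ⟨w₂, g2, h2⟩ := g1.apE (hlb n) (by omega) x (by omega)
    obtain ⟨w₃, g3, h3⟩ := (g2.mono le_rfl (M' := n + 2) (by omega)).apW (hlb n) (k := n)
      (by omega) (by omega) y z y1 z1
    have t1 : H L₀ (25 * (K * (n + 1))) (T a b :: (E x ++ W y z)) w₃ := by
      have l1 := lenE_B (hlb n) (m := x) (by omega)
      have l2 := (hlb n).len_W y z (by omega) (by omega)
      refine stp (T0 (L := L₀) (by omega)).symm [] (T a b :: (E x ++ W y z)) (by simp)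
        (by simp only [List.length_append, List.length_cons, List.length_nil]; omega) ?_
      refine stp h1 [] (E x ++ W y z) (by simp)
        (by simp only [List.length_append, List.length_nil]; omega) ?_
      refine stp h2 [] (W y z) (by simp)
        (by simp only [List.length_nil]; omega) ?_
      refine stp h3 [] [] (by simp)
        (by simp only [List.length_nil]; omega) ?_
      exact H.of_eq (by simp)
    have h4 := uniq hP (hlb n) (V := 2 * n + 8) (M := 22 * n + 99)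
      (gp.mono (by omega) (by omega)) (g3.mono (by omega) (by omega)) (by omega)
      (by rw [← t1.ev_eq, p1]; simp [h.ev_E, h.ev_W])
    have e2 : K * (2 * n + 8 + 1) ≤ 9 * (K * (n + 1)) := by
      calc K * (2 * n + 8 + 1) ≤ K * (9 * (n + 1)) := Nat.mul_le_mul_left _ (by omega)
        _ = _ := by ring
    refine ((h12 _ _ hp hpn).mono ?_).trans ((h4.mono ?_).trans (t1.symm.mono ?_))
    · omega
    · omega
    · omega

end Pool.Agent.H95.SLF
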