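import Pool.Agent.H95.SLF.Good

/-! Reduction of structured words. -/

set_option autoImplicit false

namespace Pool.Agent.H95.SLF

open Pool.Agent.H68.SLF

variable {W : ℤ → ℤ → List Lt} {E : ℤ → List Lt} {C L N B : ℕ}

lemma J0J (hL : 2 ≤ L) : H L 2 [J, J] [T (-1) (-1)] :=
  H.one (by simpa using hL) (by simp; omega) (by simp) (by simp) (by simp [J_mul_J])

lemma JsJ (h : LB W E C L N B) (s : ℤˣ) :
    H L L (J :: (E s ++ [J])) (T (-s) (-s) :: (E (-s) ++ (J :: E (-s)))) := by
  have hL := h.hL
  have l1 := lenE1 h s
  have l2 := lenE1' h s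
  refine H.one ?_ ?_ ?_ ?_ ?_
  · simp only [List.length_append, List.length_cons, List.length_nil]; omega
  · simp only [List.length_append, List.length_cons]; omega
  · simp only [List.length_append, List.length_cons, List.length_nil]; omega
  · simp only [List.length_append, List.length_cons]; omega
  · simpa [h.ev_E] using J_E_J s

/-- appending `J` to a reduced word -/
lemma appJ (h : LB W E C L N B) : ∀ (l : List ℤ) (r : ℤ), Rd l → ph (r :: l) + 1 ≤ N →
    ∃ (c : ℤˣ) (r' : ℤ) (l' : List ℤ), Rd l' ∧ ph (r' :: l') ≤ ph (r :: l) + 1 ∧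
      H L ((2 * C + 2) * ph (r :: l) + (3 * B + L)) (pre E l ++ (E r ++ [J]))
        (T c c :: (pre E l' ++ E r')) := by
  intro l
  induction l with
  | nil =>
    intro r _ hN
    refine ⟨1, 0, [r], ⟨Or.inl rfl, trivial⟩, ?_, ?_⟩
    · simp only [ph_cons, ph_nil, sz_zero]; omega
    · have hL := h.hL
      have l1 := lenE_B h (m := r) (by rw [ph_cons] at hN; omega)
      refine stp (T0 (by omega)).symm [] (E r ++ [J]) (by simp)
        (by simp only [List.length_append, List.length_cons, List.length_nil]; omega) ?_
      exact H.of_eq (by simp [h.E_zero])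
  | cons m l ih =>
    intro r hR hN
    have hL := h.hL
    have l0 := B_of h (k := ph (r :: m :: l)) (by omega)
    simp only [ph_cons] at hN l0
    have e1 : (C + 1) * (1 + sz r + (1 + sz m + ph l)) = (C + 1) * (1 + sz r) +
      (C + 1) * (1 + sz m) + (C + 1) * ph l := by ring
    rw [e1] at l0
    have l1 := lenE' h r
    have l2 := lenE' h m
    have l3 := len_pre h l
    have e2 : (2 * C + 2) * ph (r :: m :: l) = 2 * ((C + 1) * (1 + sz r)) +
        2 * ((C + 1) * (1 + sz m)) + 2 * ((C + 1) * ph l) := by
      simp only [ph_cons]; ring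
    have e3 : (C + 1) * ph (m :: l) = (C + 1) * (1 + sz m) + (C + 1) * ph l := by
      rw [ph_cons]; ring
    by_cases h2 : 2 ≤ r.natAbs
    · refine ⟨1, 0, r :: m :: l, ⟨Or.inr h2, hR⟩, ?_, ?_⟩
      · simp only [ph_cons, sz_zero]; omega
      · refine stp (T0 (by omega)).symm [] (pre E (m :: l) ++ (E r ++ [J])) (by simp)
          (by simp only [pre_cons, List.length_append, List.length_cons, List.length_nil]
              omega) ?_
        exact H.of_eq (by simp [h.E_zero])
    · have h3 : r.natAbs = 0 ∨ r.natAbs = 1 := by omega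
      rcases h3 with h3 | h3
      · have h4 : r = 0 := by omega
        subst h4
        obtain ⟨c, hc⟩ := moveTc h m l (by rw [ph_cons]; omega) (-1)
        refine ⟨c, m, l, hR.2, ?_, ?_⟩
        · simp only [ph_cons, sz_zero]; omega
        · rw [e2]
          rw [e3] at hc
          refine stp (J0J (by omega)) (pre E l ++ E m) [] (by simp [h.E_zero])
            (by simp only [List.length_append, List.length_nil]
                omega) ?_
          simpa using hc.mono (by omega)
      · obtain ⟨s, hs⟩ : ∃ s : ℤˣ, (s : ℤ) = r := by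
          rcases Int.natAbs_eq r with h5 | h5
          · exact ⟨1, by rw [h5, h3]; rfl⟩
          · exact ⟨-1, by rw [h5, h3]; rfl⟩
        subst hs
        rw [sz_unit] at hN l0 l1 e2
        have s1 : sz (m + -(s : ℤ)) ≤ sz m + 1 := by
          have := sz_add_unit m (-s)
          simpa using this
        obtain ⟨c₁, hc⟩ := moveTc h m l (by rw [ph_cons]; omega) (-s)
        obtain ⟨c₂, r₂, l₂, hR₂, hp₂, ih⟩ := ih (m + -s) hR.2 (by rw [ph_cons]; omega)
        rw [ph_cons] at hp₂ ih
        have s2 : sz (r₂ + -(s : ℤ)) ≤ sz r₂ + 1 := by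
          have := sz_add_unit r₂ (-s)
          simpa using this
        rw [ph_cons] at hp₂
        refine ⟨c₁ * c₂, r₂ + -s, l₂, hR₂, ?_, ?_⟩
        · simp only [ph_cons, sz_unit]; omega
        · rw [e2]
          rw [e3] at hc
          have m1 : (2 * C + 2) * (1 + sz (m + -(s : ℤ)) + ph l) ≤
              2 * ((C + 1) * (1 + sz m)) + 2 * ((C + 1) * ph l) + (2 * C + 2) := by
            calc (2 * C + 2) * (1 + sz (m + -(s : ℤ)) + ph l) ≤
                (2 * C + 2) * (1 + (sz m + 1) + ph l) := Nat.mul_le_mul_left _ (by omega)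
              _ = _ := by ring
          have m2 : (C + 1) * (1 + sz r₂ + ph l₂) ≤
              ((C + 1) * (1 + sz m)) + ((C + 1) * ph l) + 2 * (C + 1) := by
            calc (C + 1) * (1 + sz r₂ + ph l₂) ≤ (C + 1) * ((1 + sz m) + ph l + 2) :=
                  Nat.mul_le_mul_left _ (by omega)
              _ = _ := by ring
          have l4 := lenE1' h s
          have l5 := len_bw h r₂ l₂
          rw [ph_cons] at l5
          have e5 : (C + 1) * (1 + 1) = 2 * C + 2 := by ring
          rw [e5]
          refine stp (JsJ h s) (pre E l ++ E m) [] (by simp)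
            (by simp only [List.length_append, List.length_nil]
                omega) ?_
          refine stp hc [] (E (-s) ++ (J :: E (-s))) (by simp)
            (by simp only [List.length_append, List.length_cons, List.length_nil]
                omega) ?_
          refine stp (h.E_add m (-s) (by omega) (by rw [sz_neg, sz_unit]; omega))
            (T c₁ c₁ :: pre E l) (J :: E (-s)) (by simp)
            (by simp only [List.length_cons]
                omega) ?_
          refine stp ih [T c₁ c₁] (E (-s)) (by simp)
            (by simp only [List.length_cons, List.length_nil]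
                omega) ?_
          refine stp (TT (by omega) c₁ c₁ c₂ c₂) [] (pre E l₂ ++ (E r₂ ++ E (-s))) (by simp)
            (by simp only [List.length_append, List.length_nil]
                omega) ?_
          refine stp (h.E_add r₂ (-s) (by omega) (by rw [sz_neg, sz_unit]; omega))
            (T (c₁ * c₂) (c₁ * c₂) :: pre E l₂) [] (by simp)
            (by simp only [List.length_cons, List.length_nil]
                omega) ?_
          exact H.of_eq (by simp)

/-- normalisation -/
lemma norm (h : LB W E C L N B) : ∀ (l : List ℤ), 2 * ph l + 3 ≤ N →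
    ∃ (c : ℤˣ) (r' : ℤ) (l' : List ℤ), Rd l' ∧ ph (r' :: l') ≤ 2 * ph l + 1 ∧
      H L ((C + 1) * ph l + (6 * B + L)) (pre E l) (T c c :: (pre E l' ++ E r')) := by
  intro l
  induction l with
  | nil =>
    intro _
    have hL := h.hL
    have l0 := B_of h (k := 0) (by omega)
    refine ⟨1, 0, [], trivial, by simp, ?_⟩
    have := (T0 (L := L) (by omega)).symm.mono (m := (C + 1) * ph [] + (6 * B + L)) (by omega)
    simpa [h.E_zero] using this
  | cons m l ih =>
    intro hN
    rw [ph_cons] at hN
    have hL := h.hL
    obtain ⟨c₁, r₁, l₁, hR₁, hp₁, h1⟩ := ih (by omega)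
    rw [ph_cons] at hp₁
    have s1 := sz_add r₁ m
    obtain ⟨c₂, r₂, l₂, hR₂, hp₂, h2⟩ := appJ h l₁ (r₁ + m) hR₁ (by rw [ph_cons]; omega)
    rw [ph_cons, ph_cons] at hp₂
    refine ⟨c₁ * c₂, r₂, l₂, hR₂, by rw [ph_cons, ph_cons]; omega, ?_⟩
    have l0 := B_of h (k := ph ((r₁ + m) :: l₁)) (by rw [ph_cons]; omega)
    have e1 : (2 * C + 2) * ph ((r₁ + m) :: l₁) = 2 * ((C + 1) * ph ((r₁ + m) :: l₁)) := by ring
    rw [e1] at h2
    have e3 : (C + 1) * ph (m :: l) = (C + 1) * (1 + sz m) + (C + 1) * ph l := by
      rw [ph_cons]; ring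
    rw [e3]
    have l1 := lenE' h m
    have l2 := len_pre h l₁
    have l3 := len_bw h r₂ l₂
    have l4 := B_of h (k := ph (r₂ :: l₂)) (by rw [ph_cons]; omega)
    have l5 := B_of h (k := ph l₁) (by omega)
    refine stp h1 [] (E m ++ [J]) (by simp)
      (by simp only [List.length_append, List.length_cons, List.length_nil]; omega) ?_
    refine stp (h.E_add r₁ m (by omega) (by omega)) (T c₁ c₁ :: pre E l₁) [J] (by simp)
      (by simp only [List.length_cons, List.length_nil]; omega) ?_
    refine stp h2 [T c₁ c₁] [] (by simp)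
      (by simp only [List.length_cons, List.length_nil]; omega) ?_
    refine stp (TT (by omega) c₁ c₁ c₂ c₂) [] (pre E l₂ ++ E r₂) (by simp)
      (by simp only [List.length_append, List.length_nil]; omega) ?_
    exact H.of_eq (by simp)

/-- the statement of the peak lemma -/
def PeakSt : Prop := ∀ (x y : ℤ) (a b : ℤˣ) (r : ℤ) (l : List ℤ), Rd l → gv x y a b r l = 1 →
    x = 0 ∧ y = 0 ∧ a = 1 ∧ b = 1 ∧ r = 0 ∧ l = []

/-- structured words with trivial value are trivial -/
lemma red (hP : PeakSt) (h : LB W E C L N B) {V M : ℕ} {w : List Lt} (hw : Good W E V M w)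
    (h1 : V ≤ N) (h2 : 2 * M + 3 ≤ N) (hev : ev w = 1) : H L (9 * B + L) w [] := by
  obtain ⟨x, y, a, b, r, l, rfl, hx, hy, hl⟩ := hw
  rw [ph_cons] at hl
  have hL := h.hL
  obtain ⟨c, r', l', hR, hp, h3⟩ := norm h l (by omega)
  rw [ph_cons] at hp
  have s1 := sz_add r' r
  have l1 := h.len_W x y (by omega) (by omega)
  have l2 := lenE_B h (m := r) (by omega)
  have l3 := B_of h (k := ph l) (by omega)
  have l4 := B_of h (k := ph l') (by omega)
  have l5 := len_pre h l'
  have l6 := lenE_B h (m := r') (by omega)
  have l7 := lenE_B h (m := r' + r) (by omega)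
  have key : H L (9 * B + L) (SW W E x y a b r l) (SW W E x y (a * c) (b * c) (r' + r) l') := by
    refine stp h3 (W x y ++ [T a b]) (E r) (by simp [SW])
      (by simp only [List.length_append, List.length_cons, List.length_nil]; omega) ?_
    refine stp (TT (by omega) a b c c) (W x y) (pre E l' ++ (E r' ++ E r)) (by simp)
      (by simp only [List.length_append]; omega) ?_
    refine stp (h.E_add r' r (by omega) (by omega)) (W x y ++ (T (a * c) (b * c) :: pre E l')) []
      (by simp)
      (by simp only [List.length_append, List.length_cons, List.length_nil]; omega) ?_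
    exact H.of_eq (by simp [SW])
  have h5 := key.ev_eq
  rw [hev, ev_SW h] at h5
  obtain ⟨rfl, rfl, h6, h7, h8, rfl⟩ := hP _ _ _ _ _ _ hR h5.symm
  refine key.trans ?_
  rw [h6, h7, h8]
  have h9 := (T0 (L := L) (by omega)).mono (m := 9 * B + L) (by omega)
  simpa [SW, h.W_zero, h.E_zero] using h9

/-- structured words with the same value are homotopic -/
lemma uniq (hP : PeakSt) (h : LB W E C L N B) {V M : ℕ} {w w' : List Lt} (hw : Good W E V M w)
    (hw' : Good W E V M w') (h1 : V + 8 * M + 4 ≤ N) (hev : ev w = ev w') :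
    H L (12 * B + L) w w' := by
  have hL := h.hL
  have l1 := hw.len h (by omega) (by omega)
  have l2 := hw'.len h (by omega) (by omega)
  obtain ⟨w₁, g1, h2⟩ := hw.muli h hw' (by omega) (by omega)
  have h3 := red hP h g1 (by omega) (by omega) (by rw [← h2.ev_eq]; simp [hev])
  have c1 : H L (2 * w'.length) (wi w' ++ w') [] := H.cancel' (by omega) _ le_rfl
  refine stp c1.symm w [] (by simp) (by simp only [List.length_nil]; omega) ?_
  refine stp h2 [] w' (by simp) (by simp only [List.length_nil]; omega) ?_
  refine stp h3 [] w' (by simp) (by simp only [List.length_nil]; omega) ?_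
  exact H.of_eq (by simp)

end Pool.Agent.H95.SLF
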